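import Pool.Agent.Helper70.BI.HH.StHC

/-!
# Project BI, stage 7 (H), module BIS: bisection of squares
-/

set_option autoImplicit false

open scoped Topology unitInterval
open Set

namespace Pool.Agent.Helper70.HH.BIS

abbrev E2 : Type := ℝ × ℝ

/-- the segment -/
noncomputable def sg (P Q : E2) : Path P Q where
  toFun t := (1 - (t : ℝ)) • P + (t : ℝ) • Q
  continuous_toFun := by fun_prop
  source' := by simp
  target' := by simp

theorem sg_apply (P Q : E2) (t : I) : sg P Q t = (1 - (t : ℝ)) • P + (t : ℝ) • Q := rfl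

theorem sg_half (P M Q : E2) (h : (2 : ℝ) • M = P + Q) : sg P Q = (sg P M).trans (sg M Q) := by
  have hM : M = (1 / 2 : ℝ) • (P + Q) := by
    rw [← h, smul_smul]
    norm_num
  ext1
  funext t
  rw [Path.trans_apply]
  split_ifs with ht
  · rw [sg_apply, sg_apply, hM]
    module
  · rw [sg_apply, sg_apply, hM]
    module

theorem s2_apply (P M Q : E2) (t : I) :
    ((sg P M).trans (sg M Q)) t =
      P + ((brm t).1 : ℝ) • (M - P) + ((brm t).2 : ℝ) • (Q - M) := by
  have h1 : ((brm t).1 : ℝ) = min 1 (2 * (t : ℝ)) := rfl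
  have h2 : ((brm t).2 : ℝ) = max 0 (2 * (t : ℝ) - 1) := rfl
  rw [Path.trans_apply, h1, h2]
  split_ifs with ht
  · rw [sg_apply, min_eq_right (by linarith), max_eq_left (by linarith)]
    show (1 - 2 * (t : ℝ)) • P + (2 * (t : ℝ)) • M = _
    module
  · rw [sg_apply, min_eq_left (by linarith), max_eq_right (by linarith)]
    show (1 - (2 * (t : ℝ) - 1)) • M + (2 * (t : ℝ) - 1) • Q = _
    module

theorem trans_hl {a b c : E2} (p : Path a b) (q : Path b c) :
    (p.trans q).toContinuousMap.comp hl = p.toContinuousMap := by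
  ext1 t
  show (p.trans q) (hl t) = p t
  rw [Path.trans_apply]
  have h : ((hl t : I) : ℝ) = (t : ℝ) / 2 := rfl
  rw [dif_pos (by rw [h]; linarith [t.2.2])]
  congr 1
  apply Subtype.ext
  show 2 * ((hl t : I) : ℝ) = t
  rw [h]
  ring

theorem trans_hr {a b c : E2} (p : Path a b) (q : Path b c) :
    (p.trans q).toContinuousMap.comp hr = q.toContinuousMap := by
  ext1 t
  show (p.trans q) (hr t) = q t
  rw [Path.trans_apply]
  have h : ((hr t : I) : ℝ) = (1 + (t : ℝ)) / 2 := rfl
  split_ifs with ht
  · have h0 : t = 0 := by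
      apply Subtype.ext
      show (t : ℝ) = 0
      rw [h] at ht
      linarith [t.2.1]
    have h1 : (⟨2 * ((hr t : I) : ℝ), (unitInterval.mul_pos_mem_iff zero_lt_two).2
        ⟨(hr t).2.1, ht⟩⟩ : I) = 1 := by
      apply Subtype.ext
      show 2 * ((hr t : I) : ℝ) = 1
      rw [h, h0]
      norm_num
    rw [h1, h0, p.target, q.source]
  · congr 1
    apply Subtype.ext
    show 2 * ((hr t : I) : ℝ) - 1 = t
    rw [h]
    ring

theorem trans_mid {a b c : E2} (p : Path a b) (q : Path b c) : (p.trans q) mid = b := by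
  rw [Path.trans_apply]
  have h : ((mid : I) : ℝ) = 1 / 2 := rfl
  rw [dif_pos (by rw [h])]
  have h1 : (⟨2 * ((mid : I) : ℝ), (unitInterval.mul_pos_mem_iff zero_lt_two).2
      ⟨mid.2.1, by rw [h]⟩⟩ : I) = 1 := by
    apply Subtype.ext
    show 2 * ((mid : I) : ℝ) = 1
    rw [h]
    norm_num
  rw [h1, p.target]

theorem trans_phi {a b c d : E2} (p : Path a b) (q : Path b c) (r : Path c d) :
    ((p.trans q).trans r).toContinuousMap.comp phiI = (p.trans (q.trans r)).toContinuousMap := by
  ext1 t
  show ((p.trans q).trans r) (phiI t) = (p.trans (q.trans r)) t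
  have h := phi_trans p q r (t : ℝ)
  rw [Path.extend_apply _ (phi_mem t), Path.extend_apply _ t.2] at h
  exact h

section

variable {X : Type} [TopologicalSpace X] {V : Type} [AddCommGroup V] (w : C(I × I, X) → V)
  (v : C(I, X) → V) (Φ : C(E2, X))

/-- the value of the linear 2-cell -/
noncomputable def W {a b : E2} (p q : Path a b) : V :=
  w (Φ.comp (lnm p.toContinuousMap q.toContinuousMap))

/-- the value of a path -/
noncomputable def vv {a b : E2} (p : Path a b) : V := v (Φ.comp p.toContinuousMap)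

theorem same {a b : E2} (p q : Path a b) : Same p.toContinuousMap q.toContinuousMap :=
  ⟨p.source.trans q.source.symm, p.target.trans q.target.symm⟩

/-- the laws -/
structure Laws : Prop where
  one : ∀ {a b : E2} (p q r : Path a b), W w Φ p r = W w Φ p q + W w Φ q r
  two : ∀ {a b c : E2} (p p' : Path a b) (q q' : Path b c),
    W w Φ (p.trans q) (p'.trans q') = W w Φ p p' + W w Φ q q' + vv v Φ (p'.trans q') -
      vv v Φ (p.trans q)
  three : ∀ {a b c d : E2} (p : Path a b) (q : Path b c) (r : Path c d),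
    W w Φ ((p.trans q).trans r) (p.trans (q.trans r)) = vv v Φ (q.trans r) +
      vv v Φ (p.trans (q.trans r)) - vv v Φ (p.trans q) - vv v Φ ((p.trans q).trans r)
  refl : ∀ {a b : E2} (p : Path a b), W w Φ p p = 0

theorem laws (hWWL : StWWL) (hU : IsU X V w v) : Laws w v Φ := by
  obtain ⟨-, h1, h2, h3, h5⟩ := hWWL X V w v hU E2 Φ
  refine ⟨?_, ?_, ?_, ?_⟩
  · intro a b p q r
    exact h1 _ _ _ (same p q) (same q r)
  · intro a b c p p' q q'
    have h := h2 (p.trans q).toContinuousMap (p'.trans q').toContinuousMap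
      (same (p.trans q) (p'.trans q')) ((trans_mid p q).trans (trans_mid p' q').symm)
    rw [trans_hl, trans_hl, trans_hr, trans_hr] at h
    exact h
  · intro a b c d p q r
    have h := h3 ((p.trans q).trans r).toContinuousMap
    rw [trans_phi, trans_hr, trans_hl] at h
    exact h
  · intro a b p
    exact h5 _

variable {w v Φ}

theorem Laws.inv (L : Laws w v Φ) {a b : E2} (p q : Path a b) : W w Φ q p = - W w Φ p q := by
  have h := L.one p q p
  rw [L.refl] at h
  exact (neg_eq_of_add_eq_zero_right h.symm).symm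

theorem face (S : C(I × I, X)) (A B B' D : E2) (hD : D = B + B' - A)
    (hS : ∀ z : I × I, S z = Φ (A + (z.1 : ℝ) • (B - A) + (z.2 : ℝ) • (B' - A))) :
    aa w v S = W w Φ ((sg A B).trans (sg B D)) ((sg A B').trans (sg B' D)) +
      vv v Φ ((sg A B).trans (sg B D)) - vv v Φ ((sg A B').trans (sg B' D)) := by
  have h1 : S.comp brm = Φ.comp ((sg A B).trans (sg B D)).toContinuousMap := by
    ext1 t
    show S (brm t) = Φ (((sg A B).trans (sg B D)) t)
    rw [hS, s2_apply, hD]
    congr 1
    module
  have h2 : S.comp ltm = Φ.comp ((sg A B').trans (sg B' D)).toContinuousMap := by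
    ext1 t
    show S (brm t).swap = Φ (((sg A B').trans (sg B' D)) t)
    rw [hS, s2_apply, hD, Prod.fst_swap, Prod.snd_swap]
    congr 1
    module
  have h3 : S.comp cellm = Φ.comp (lnm ((sg A B).trans (sg B D)).toContinuousMap
      ((sg A B').trans (sg B' D)).toContinuousMap) := by
    ext1 z
    show S (cellm z) = Φ ((1 - (z.1 : ℝ)) • ((sg A B).trans (sg B D)) z.2 +
      (z.1 : ℝ) • ((sg A B').trans (sg B' D)) z.2)
    have e1 : (((cellm z).1 : I) : ℝ) = (1 - (z.1 : ℝ)) * (brm z.2).1 + (z.1 : ℝ) * (brm z.2).2 :=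
      rfl
    have e2 : (((cellm z).2 : I) : ℝ) = (1 - (z.1 : ℝ)) * (brm z.2).2 + (z.1 : ℝ) * (brm z.2).1 :=
      rfl
    rw [hS, s2_apply, s2_apply, hD, e1, e2]
    congr 1
    module
  unfold aa W vv
  rw [h1, h2, h3]

end

/-- the projection of the plane to the square -/
noncomputable def clamp : C(E2, I × I) :=
  ⟨fun z => (projIcc 0 1 zero_le_one z.1, projIcc 0 1 zero_le_one z.2),
    (continuous_projIcc.comp continuous_fst).prodMk (continuous_projIcc.comp continuous_snd)⟩

theorem clamp_coe (x y : I) : clamp ((x : ℝ), (y : ℝ)) = (x, y) := by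
  show (projIcc 0 1 zero_le_one (x : ℝ), projIcc 0 1 zero_le_one (y : ℝ)) = (x, y)
  rw [projIcc_val, projIcc_val]

theorem clamp_eq (z : E2) (x y : I) (h1 : z.1 = x) (h2 : z.2 = y) : clamp z = (x, y) := by
  rw [← clamp_coe x y, ← h1, ← h2]

/-- the module -/
theorem m_BIS (hWWL : StWWL) : StBIS := by
  intro X _ V _ w v hU S
  have L := laws w v (S.comp clamp) hWWL hU
  constructor
  · have hf : aa w v S = _ := face (w := w) (v := v) (Φ := S.comp clamp) S (0, 0) (1, 0) (0, 1)
      (1, 1) (by ext <;> simp) (fun z => congrArg S (clamp_eq _ z.1 z.2 (by simp) (by simp)).symm)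
    have hl' : aa w v (lowS S) = _ := face (w := w) (v := v) (Φ := S.comp clamp) (lowS S) (0, 0)
      (1 / 2, 0) (0, 1) (1 / 2, 1) (by ext <;> simp) (fun z =>
        congrArg S (clamp_eq _ (hl z.1) z.2 (by
          show _ = (z.1 : ℝ) / 2
          simp
          ring) (by simp)).symm)
    have hu' : aa w v (upS S) = _ := face (w := w) (v := v) (Φ := S.comp clamp) (upS S) (1 / 2, 0)
      (1, 0) (1 / 2, 1) (1, 1) (by ext <;> simp) (fun z =>
        congrArg S (clamp_eq _ (hr z.1) z.2 (by
          show _ = (1 + (z.1 : ℝ)) / 2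
          simp
          ring) (by simp)).symm)
    have hb : v (S.comp botm) = vv v (S.comp clamp) ((sg (0, 0) (1 / 2, 0)).trans
        (sg (1 / 2, 0) (1, 0))) := by
      rw [← sg_half _ _ _ (by ext <;> simp)]
      unfold vv
      congr 1
      ext1 t
      exact congrArg S (clamp_eq _ t 0 (by simp [sg_apply]) (by simp [sg_apply])).symm
    have ht : v (S.comp topm) = vv v (S.comp clamp) ((sg (0, 1) (1 / 2, 1)).trans
        (sg (1 / 2, 1) (1, 1))) := by
      rw [← sg_half _ _ _ (by ext <;> simp <;> norm_num)]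
      unfold vv
      congr 1
      ext1 t
      exact congrArg S (clamp_eq _ t 1 (by simp [sg_apply]) (by simp [sg_apply])).symm
    rw [hf, hl', hu', hb, ht, sg_half (0, 0) (1 / 2, 0) (1, 0) (by ext <;> simp),
      sg_half (0, 1) (1 / 2, 1) (1, 1) (by ext <;> simp <;> norm_num)]
    set p := sg (0, 0) (1 / 2, 0)
    set q := sg (1 / 2, 0) (1, 0)
    set r := sg (1, 0) (1, 1)
    set m := sg (1 / 2, 0) (1 / 2, 1)
    set p' := sg (0, 1) (1 / 2, 1)
    set q' := sg (1 / 2, 1) (1, 1)
    set l := sg (0, 0) (0, 1)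
    have w12 := L.three p q r
    have w23 := L.two p p (q.trans r) (m.trans q')
    have w34 := L.inv ((p.trans m).trans q') (p.trans (m.trans q'))
    have w43 := L.three p m q'
    have w45 := L.two (p.trans m) (l.trans p') q' q'
    have w56 := L.three l p' q'
    rw [L.refl] at w23 w45
    rw [L.one ((p.trans q).trans r) (p.trans (q.trans r)) (l.trans (p'.trans q')),
      L.one (p.trans (q.trans r)) (p.trans (m.trans q')) (l.trans (p'.trans q')),
      L.one (p.trans (m.trans q')) ((p.trans m).trans q') (l.trans (p'.trans q')),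
      L.one ((p.trans m).trans q') ((l.trans p').trans q') (l.trans (p'.trans q')),
      w12, w23, w34, w43, w45, w56]
    abel
  · have hf : aa w v S = _ := face (w := w) (v := v) (Φ := S.comp clamp) S (0, 0) (1, 0) (0, 1)
      (1, 1) (by ext <;> simp) (fun z => congrArg S (clamp_eq _ z.1 z.2 (by simp) (by simp)).symm)
    have hl' : aa w v (lowT S) = _ := face (w := w) (v := v) (Φ := S.comp clamp) (lowT S) (0, 0)
      (1, 0) (0, 1 / 2) (1, 1 / 2) (by ext <;> simp) (fun z =>
        congrArg S (clamp_eq _ z.1 (hl z.2) (by simp) (by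
          show _ = (z.2 : ℝ) / 2
          simp
          ring)).symm)
    have hu' : aa w v (upT S) = _ := face (w := w) (v := v) (Φ := S.comp clamp) (upT S) (0, 1 / 2)
      (1, 1 / 2) (0, 1) (1, 1) (by ext <;> simp) (fun z =>
        congrArg S (clamp_eq _ z.1 (hr z.2) (by simp) (by
          show _ = (1 + (z.2 : ℝ)) / 2
          simp
          ring)).symm)
    have hb : v (S.comp lefm) = vv v (S.comp clamp) ((sg (0, 0) (0, 1 / 2)).trans
        (sg (0, 1 / 2) (0, 1))) := by
      rw [← sg_half _ _ _ (by ext <;> simp)]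
      unfold vv
      congr 1
      ext1 t
      exact congrArg S (clamp_eq _ 0 t (by simp [sg_apply]) (by simp [sg_apply])).symm
    have ht : v (S.comp rigm) = vv v (S.comp clamp) ((sg (1, 0) (1, 1 / 2)).trans
        (sg (1, 1 / 2) (1, 1))) := by
      rw [← sg_half _ _ _ (by ext <;> simp <;> norm_num)]
      unfold vv
      congr 1
      ext1 t
      exact congrArg S (clamp_eq _ 1 t (by simp [sg_apply]) (by simp [sg_apply])).symm
    rw [hf, hl', hu', hb, ht, sg_half (0, 0) (0, 1 / 2) (0, 1) (by ext <;> simp),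
      sg_half (1, 0) (1, 1 / 2) (1, 1) (by ext <;> simp <;> norm_num)]
    set p := sg (0, 0) (0, 1 / 2)
    set q := sg (0, 1 / 2) (0, 1)
    set r := sg (0, 1) (1, 1)
    set m := sg (0, 1 / 2) (1, 1 / 2)
    set p' := sg (1, 0) (1, 1 / 2)
    set q' := sg (1, 1 / 2) (1, 1)
    set l := sg (0, 0) (1, 0)
    have w12 := L.inv ((l.trans p').trans q') (l.trans (p'.trans q'))
    have w21 := L.three l p' q'
    have w23 := L.two (l.trans p') (p.trans m) q' q'
    have w34 := L.three p m q'
    have w45 := L.two p p (m.trans q') (q.trans r)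
    have w56 := L.inv ((p.trans q).trans r) (p.trans (q.trans r))
    have w65 := L.three p q r
    rw [L.refl] at w23 w45
    rw [L.one (l.trans (p'.trans q')) ((l.trans p').trans q') ((p.trans q).trans r),
      L.one ((l.trans p').trans q') ((p.trans m).trans q') ((p.trans q).trans r),
      L.one ((p.trans m).trans q') (p.trans (m.trans q')) ((p.trans q).trans r),
      L.one (p.trans (m.trans q')) (p.trans (q.trans r)) ((p.trans q).trans r),
      w12, w21, w23, w34, w45, w56, w65]
    abel

end Pool.Agent.Helper70.HH.BIS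

namespace Pool.Agent.Helper70.HH

/-- module BIS -/
theorem m_BIS (hWWL : StWWL) : StBIS := BIS.m_BIS hWWL

end Pool.Agent.Helper70.HH
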